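import Mathlib

/-!
Runs of consecutive `m` with `μ(m^2+1) = 1`: such a run of length `k` exists exactly when
`k ≤ 13`.  For `k ≥ 14` one of `n, …, n+13` is `7` or `18` modulo `25`, so `25 ∣ m^2+1`.
-/

set_option autoImplicit false

namespace Pool.Agent.Results.MP_e6b4b8_nt.Disproof

open ArithmeticFunction

/-- Trial division up to `300 * A`. -/
def chk (p A : ℕ) : Bool :=
  (List.range A).all fun a => (List.range 300).all fun b =>
    decide (300 * a + b < 2) || decide (p < (300 * a + b) * (300 * a + b)) ||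
      decide (p % (300 * a + b) ≠ 0)

lemma prime_of_chk (p A : ℕ) (hp : 2 ≤ p) (hA : p < (300 * A) * (300 * A))
    (h : chk p A = true) : p.Prime := by
  rw [Nat.prime_def_le_sqrt]
  refine ⟨hp, fun m hm hs hd => ?_⟩
  have hmm : m * m ≤ p := Nat.le_sqrt.1 hs
  have hlt : m < 300 * A := by
    by_contra hc
    have := Nat.mul_le_mul (not_lt.1 hc) (not_lt.1 hc)
    omega
  unfold chk at h
  rw [List.all_eq_true] at h
  have h1 := h (m / 300) (List.mem_range.2 (by omega))
  rw [List.all_eq_true] at h1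
  have h2 := h1 (m % 300) (List.mem_range.2 (Nat.mod_lt _ (by norm_num)))
  have e : 300 * (m / 300) + m % 300 = m := Nat.div_add_mod m 300
  rw [e] at h2
  simp only [Bool.or_eq_true, decide_eq_true_eq] at h2
  rcases h2 with (h2 | h2) | h2
  · omega
  · omega
  · exact h2 (Nat.mod_eq_zero_of_dvd hd)

lemma mu2 {p q : ℕ} (hp : p.Prime) (hq : q.Prime) (h : p ≠ q) : moebius (p * q) = 1 := by
  rw [isMultiplicative_moebius.map_mul_of_coprime ((Nat.coprime_primes hp hq).2 h),
    moebius_apply_prime hp, moebius_apply_prime hq]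
  norm_num

lemma mu4 {p q r s : ℕ} (hp : p.Prime) (hq : q.Prime) (hr : r.Prime) (hs : s.Prime)
    (h1 : p ≠ q) (h2 : r ≠ s) (h3 : Nat.Coprime (p * q) (r * s)) :
    moebius (p * q * (r * s)) = 1 := by
  rw [isMultiplicative_moebius.map_mul_of_coprime h3, mu2 hp hq h1, mu2 hr hs h2]
  norm_num

lemma p2 : Nat.Prime 2 := by norm_num
lemma p5 : Nat.Prime 5 := by norm_num
lemma p13 : Nat.Prime 13 := by norm_num
lemma p17 : Nat.Prime 17 := by norm_num
lemma p29 : Nat.Prime 29 := by norm_num
lemma p37 : Nat.Prime 37 := by norm_num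
lemma p41 : Nat.Prime 41 := by norm_num
lemma p61 : Nat.Prime 61 := by norm_num
lemma p73 : Nat.Prime 73 := by norm_num
lemma p157 : Nat.Prime 157 := by norm_num
lemma p929 : Nat.Prime 929 := by norm_num
lemma p3613 : Nat.Prime 3613 :=
  prime_of_chk 3613 1 (by norm_num) (by norm_num) (by decide +kernel)
lemma p3833 : Nat.Prime 3833 :=
  prime_of_chk 3833 1 (by norm_num) (by norm_num) (by decide +kernel)
lemma p9749 : Nat.Prime 9749 :=
  prime_of_chk 9749 1 (by norm_num) (by norm_num) (by decide +kernel)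
lemma p19469 : Nat.Prime 19469 :=
  prime_of_chk 19469 1 (by norm_num) (by norm_num) (by decide +kernel)
lemma p21977 : Nat.Prime 21977 :=
  prime_of_chk 21977 1 (by norm_num) (by norm_num) (by decide +kernel)
lemma p36241 : Nat.Prime 36241 :=
  prime_of_chk 36241 1 (by norm_num) (by norm_num) (by decide +kernel)
lemma p37097 : Nat.Prime 37097 :=
  prime_of_chk 37097 1 (by norm_num) (by norm_num) (by decide +kernel)
lemma p45413 : Nat.Prime 45413 :=
  prime_of_chk 45413 1 (by norm_num) (by norm_num) (by decide +kernel)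
lemma p57041 : Nat.Prime 57041 :=
  prime_of_chk 57041 1 (by norm_num) (by norm_num) (by decide +kernel)
lemma p100469 : Nat.Prime 100469 :=
  prime_of_chk 100469 2 (by norm_num) (by norm_num) (by decide +kernel)
lemma p100613 : Nat.Prime 100613 :=
  prime_of_chk 100613 2 (by norm_num) (by norm_num) (by decide +kernel)
lemma p303337 : Nat.Prime 303337 :=
  prime_of_chk 303337 2 (by norm_num) (by norm_num) (by decide +kernel)
lemma p351413 : Nat.Prime 351413 :=
  prime_of_chk 351413 2 (by norm_num) (by norm_num) (by decide +kernel)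
lemma p352021 : Nat.Prime 352021 :=
  prime_of_chk 352021 2 (by norm_num) (by norm_num) (by decide +kernel)
lemma p1995649 : Nat.Prime 1995649 :=
  prime_of_chk 1995649 5 (by norm_num) (by norm_num) (by decide +kernel)
lemma p3325253 : Nat.Prime 3325253 :=
  prime_of_chk 3325253 7 (by norm_num) (by norm_num) (by decide +kernel)
lemma p5412761 : Nat.Prime 5412761 :=
  prime_of_chk 5412761 8 (by norm_num) (by norm_num) (by decide +kernel)
lemma p5557457 : Nat.Prime 5557457 :=
  prime_of_chk 5557457 8 (by norm_num) (by norm_num) (by decide +kernel)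
lemma p37170401 : Nat.Prime 37170401 :=
  prime_of_chk 37170401 21 (by norm_num) (by norm_num) (by decide +kernel)
lemma p52385497 : Nat.Prime 52385497 :=
  prime_of_chk 52385497 25 (by norm_num) (by norm_num) (by decide +kernel)
lemma p1278974441 : Nat.Prime 1278974441 :=
  prime_of_chk 1278974441 120 (by norm_num) (by norm_num) (by decide +kernel)
lemma p6923793973 : Nat.Prime 6923793973 :=
  prime_of_chk 6923793973 278 (by norm_num) (by norm_num) (by decide +kernel)

lemma m0 : moebius ((448094 + 0) ^ 2 + 1) = 1 := by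
  rw [show (448094 + 0) ^ 2 + 1 = 100613 * 1995649 by norm_num]
  exact mu2 p100613 p1995649 (by norm_num)
lemma m1 : moebius ((448094 + 1) ^ 2 + 1) = 1 := by
  rw [show (448094 + 1) ^ 2 + 1 = 2 * 61 * (36241 * 45413) by norm_num]
  exact mu4 p2 p61 p36241 p45413 (by norm_num) (by norm_num) (by norm_num)
lemma m2 : moebius ((448094 + 2) ^ 2 + 1) = 1 := by
  rw [show (448094 + 2) ^ 2 + 1 = 29 * 6923793973 by norm_num]
  exact mu2 p29 p6923793973 (by norm_num)
lemma m3 : moebius ((448094 + 3) ^ 2 + 1) = 1 := by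
  rw [show (448094 + 3) ^ 2 + 1 = 2 * 5 * (3613 * 5557457) by norm_num]
  exact mu4 p2 p5 p3613 p5557457 (by norm_num) (by norm_num) (by norm_num)
lemma m4 : moebius ((448094 + 4) ^ 2 + 1) = 1 := by
  rw [show (448094 + 4) ^ 2 + 1 = 5 * 41 * (9749 * 100469) by norm_num]
  exact mu4 p5 p41 p9749 p100469 (by norm_num) (by norm_num) (by norm_num)
lemma m5 : moebius ((448094 + 5) ^ 2 + 1) = 1 := by
  rw [show (448094 + 5) ^ 2 + 1 = 2 * 17 * (19469 * 303337) by norm_num]
  exact mu4 p2 p17 p19469 p303337 (by norm_num) (by norm_num) (by norm_num)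
lemma m6 : moebius ((448094 + 6) ^ 2 + 1) = 1 := by
  rw [show (448094 + 6) ^ 2 + 1 = 3833 * 52385497 by norm_num]
  exact mu2 p3833 p52385497 (by norm_num)
lemma m7 : moebius ((448094 + 7) ^ 2 + 1) = 1 := by
  rw [show (448094 + 7) ^ 2 + 1 = 2 * 37 * (73 * 37170401) by norm_num]
  exact mu4 p2 p37 p73 p37170401 (by norm_num) (by norm_num) (by norm_num)
lemma m8 : moebius ((448094 + 8) ^ 2 + 1) = 1 := by
  rw [show (448094 + 8) ^ 2 + 1 = 5 * 13 * (929 * 3325253) by norm_num]
  exact mu4 p5 p13 p929 p3325253 (by norm_num) (by norm_num) (by norm_num)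
lemma m9 : moebius ((448094 + 9) ^ 2 + 1) = 1 := by
  rw [show (448094 + 9) ^ 2 + 1 = 2 * 5 * (57041 * 352021) by norm_num]
  exact mu4 p2 p5 p57041 p352021 (by norm_num) (by norm_num) (by norm_num)
lemma m10 : moebius ((448094 + 10) ^ 2 + 1) = 1 := by
  rw [show (448094 + 10) ^ 2 + 1 = 37097 * 5412761 by norm_num]
  exact mu2 p37097 p5412761 (by norm_num)
lemma m11 : moebius ((448094 + 11) ^ 2 + 1) = 1 := by
  rw [show (448094 + 11) ^ 2 + 1 = 2 * 13 * (21977 * 351413) by norm_num]
  exact mu4 p2 p13 p21977 p351413 (by norm_num) (by norm_num) (by norm_num)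
lemma m12 : moebius ((448094 + 12) ^ 2 + 1) = 1 := by
  rw [show (448094 + 12) ^ 2 + 1 = 157 * 1278974441 by norm_num]
  exact mu2 p157 p1278974441 (by norm_num)

lemma run13 : ∀ j < 13, moebius ((448094 + j) ^ 2 + 1) = 1 := by
  intro j hj
  interval_cases j
  exacts [m0, m1, m2, m3, m4, m5, m6, m7, m8, m9, m10, m11, m12]

lemma obstruction (n : ℕ) : ∃ j < 14, moebius ((n + j) ^ 2 + 1) = 0 := by
  have key : ∀ r < 25, ∃ j < 14, ((r + j) ^ 2 + 1) % 25 = 0 := by decide
  obtain ⟨j, hj, h⟩ := key (n % 25) (Nat.mod_lt _ (by norm_num))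
  refine ⟨j, hj, moebius_eq_zero_of_not_squarefree fun hs => ?_⟩
  have hd : 5 * 5 ∣ (n + j) ^ 2 + 1 := by
    apply Nat.dvd_of_mod_eq_zero
    have e : (n + j) ^ 2 + 1 ≡ (n % 25 + j) ^ 2 + 1 [MOD 25] :=
      (((Nat.mod_modEq n 25).symm.add_right j).pow 2).add_right 1
    exact Eq.trans e h
  have := Nat.isUnit_iff.1 (hs 5 hd)
  omega

/-- The set of `n` with `μ((n+j)^2+1) = 1` for all `j < k` is empty exactly when `k ≥ 14`. -/
theorem result : ∀ k : ℕ,
    {n : ℕ | ∀ j < k, ArithmeticFunction.moebius ((n + j) ^ 2 + 1) = 1} = ∅ ↔ 14 ≤ k := by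
  intro k
  constructor
  · intro h
    by_contra hk
    have : 448094 ∈ {n : ℕ | ∀ j < k, moebius ((n + j) ^ 2 + 1) = 1} :=
      fun j hj => run13 j (by omega)
    rw [h] at this
    exact this
  · intro hk
    refine Set.eq_empty_of_forall_notMem fun n hn => ?_
    obtain ⟨j, hj, h0⟩ := obstruction n
    have := hn j (by omega)
    rw [h0] at this
    exact absurd this (by norm_num)

end Pool.Agent.Results.MP_e6b4b8_nt.Disproof
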