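import Pool.Agent.Lib.MP_e6b4b8_nt.NL.Final

/-!
The case `k = 1` with a nearly linear count: at least `c X / ((log X)^2 (log log X)^3)` of the
`n ≤ X` have `μ(n^2+1) = 1`.
-/

set_option autoImplicit false

open Finset Filter

namespace Pool.Agent.Results.MP_e6b4b8_nt.NearLinear

theorem result :
    ∃ c : ℝ, 0 < c ∧ ∀ᶠ X : ℕ in atTop,
      c * X / (Real.log X ^ 2 * Real.log (Real.log X) ^ 3) ≤
        (((range (X + 1)).filter fun n => ArithmeticFunction.moebius (n ^ 2 + 1) = 1).card : ℝ) :=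
  Pool.Agent.Lib.MP_e6b4b8_nt.NL.main

end Pool.Agent.Results.MP_e6b4b8_nt.NearLinear
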